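import Pool.Agent.R80.UB.Uniform

/-!
# The rescaled Turán densities `t_*(r)` grow at most logarithmically

`t_*(r) ≤ 28 log r` for all `r ≥ 2`. The bound known before was `(r-1)^(r-1) / r!`, which is
exponential in `r`.
-/

set_option autoImplicit false
open Filter Topology

namespace Pool.Agent.Results.MP_ea5d3c_co.LogarithmicUpper

/-- `E` is a family of `r`-sets of vertices and every `k`-set of vertices contains a member of `E`:
the `r`-graph `E` has independence number less than `k`. -/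
def Covers {V : Type} (k r : ℕ) (E : Finset (Finset V)) : Prop :=
  (∀ e ∈ E, e.card = r) ∧ ∀ S : Finset V, S.card = k → ∃ e ∈ E, e ⊆ S

/-- The Turán number `T(n,k,r)`. -/
noncomputable def turanNumber (n k r : ℕ) : ℕ :=
  sInf {m | ∃ E : Finset (Finset (Fin n)), Covers k r E ∧ E.card = m}

/-- The Turán density `t(k,r)`, the limit of `T(n,k,r) / C(n,r)`. -/
noncomputable def turanDensity (k r : ℕ) : ℝ :=
  limUnder atTop fun n : ℕ => (turanNumber n k r : ℝ) / (n.choose r : ℝ)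

/-- The rescaled Turán density `t_*(k,r) = (k-1)^(r-1) / r! * t(k,r)`. -/
noncomputable def rescaled (k r : ℕ) : ℝ :=
  ((k : ℝ) - 1) ^ (r - 1) / (r.factorial : ℝ) * turanDensity k r

/-- `t_*(r)`, the limit of `t_*(k,r)` as `k` tends to infinity. -/
noncomputable def tStar (r : ℕ) : ℝ :=
  limUnder atTop fun k : ℕ => rescaled k r

theorem dens {k r : ℕ} (hrk : r ≤ k) : Pool.Agent.TH173.RT.Dens k r (turanDensity k r) := by
  obtain ⟨t, ht⟩ := Pool.Agent.TH173.RT.exists_dens hrk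
  have h : Tendsto (fun n : ℕ => (turanNumber n k r : ℝ) / (n.choose r : ℝ)) atTop (𝓝 t) := ht
  have h2 : turanDensity k r = t := h.limUnder_eq
  rw [h2]
  exact h

theorem density_nonneg {k r : ℕ} (hrk : r ≤ k) : 0 ≤ turanDensity k r := by
  have := Pool.Agent.TH173.RT.dens_lower hrk (dens hrk)
  exact le_trans (by positivity) this

theorem rescaled_nonneg {k r : ℕ} (hr : 1 ≤ r) (hrk : r ≤ k) : 0 ≤ rescaled k r := by
  unfold rescaled
  have h1 : (1 : ℝ) ≤ k := by exact_mod_cast (by omega : 1 ≤ k)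
  have h2 := density_nonneg hrk
  have h3 : (0 : ℝ) ≤ (k : ℝ) - 1 := by linarith
  positivity

/-- `t_*(k,r) ≤ ((m+1)/m)^(r-1) t_*(a+1,r)` for `m a ≤ k - 1 ≤ (m+1) a`. -/
theorem rescaled_le {k a m r : ℕ} (hr : 1 ≤ r) (hm : 1 ≤ m) (hra : r ≤ a)
    (h1 : m * a ≤ k - 1) (h2 : k - 1 ≤ (m + 1) * a) :
    rescaled k r ≤ (((m : ℝ) + 1) / m) ^ (r - 1) * rescaled (a + 1) r := by
  have hk : 1 ≤ k := by
    have : 1 ≤ m * a := Nat.mul_pos (by omega) (by omega)
    omega
  have hma : a ≤ m * a := Nat.le_mul_of_pos_left a (by omega)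
  have hrk : r ≤ k := by omega
  have d1 := Pool.Agent.R80.UB.dens_mul hm hr (by omega : r ≤ a + 1) (dens (by omega))
    (dens (k := m * a + 1) (by omega))
  have d2 : turanDensity k r ≤ turanDensity (m * a + 1) r :=
    Pool.Agent.R80.UB.dens_mono (by omega) (by omega) (dens (k := m * a + 1) (by omega))
      (dens hrk)
  have hm0 : (0 : ℝ) < m := by exact_mod_cast hm
  have hk1 : (0 : ℝ) ≤ (k : ℝ) - 1 := by
    have : (1 : ℝ) ≤ k := by exact_mod_cast hk
    linarith
  have hf : (0 : ℝ) < (r.factorial : ℝ) := by exact_mod_cast Nat.factorial_pos r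
  have h3 : (k : ℝ) - 1 ≤ ((m : ℝ) + 1) * a := by
    have : ((k - 1 : ℕ) : ℝ) ≤ (((m + 1) * a : ℕ) : ℝ) := by exact_mod_cast h2
    rw [Nat.cast_sub hk] at this
    push_cast at this
    linarith
  have h4 : ((k : ℝ) - 1) ^ (r - 1) ≤ (((m : ℝ) + 1) * a) ^ (r - 1) :=
    pow_le_pow_left₀ hk1 h3 _
  have h5 : turanDensity k r * (m : ℝ) ^ (r - 1) ≤ turanDensity (a + 1) r := by
    refine le_trans ?_ d1
    gcongr
  unfold rescaled
  have ht := density_nonneg hrk
  calc ((k : ℝ) - 1) ^ (r - 1) / (r.factorial : ℝ) * turanDensity k r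
      ≤ (((m : ℝ) + 1) * a) ^ (r - 1) / (r.factorial : ℝ) * turanDensity k r := by gcongr
    _ = (((m : ℝ) + 1) / m) ^ (r - 1) * ((a : ℝ) ^ (r - 1) / (r.factorial : ℝ)) *
        (turanDensity k r * (m : ℝ) ^ (r - 1)) := by
          rw [mul_pow, div_pow]
          field_simp
    _ ≤ (((m : ℝ) + 1) / m) ^ (r - 1) * ((a : ℝ) ^ (r - 1) / (r.factorial : ℝ)) *
        turanDensity (a + 1) r := by gcongr
    _ = _ := by
          push_cast
          rw [add_sub_cancel_right]
          ring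

/-- the infimum -/
noncomputable def infStar (r : ℕ) : ℝ := ⨅ k : {k : ℕ // r < k}, rescaled k r

theorem bddBelow {r : ℕ} (hr : 1 ≤ r) :
    BddBelow (Set.range fun k : {k : ℕ // r < k} => rescaled k r) := by
  refine ⟨0, ?_⟩
  rintro _ ⟨⟨k, hk⟩, rfl⟩
  exact rescaled_nonneg hr hk.le

theorem tendsto {r : ℕ} (hr : 1 ≤ r) :
    Tendsto (fun k : ℕ => rescaled k r) atTop (𝓝 (infStar r)) := by
  have hne : Nonempty {k : ℕ // r < k} := ⟨⟨r + 1, by omega⟩⟩
  rw [Metric.tendsto_atTop]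
  intro ε hε
  obtain ⟨⟨k₀, hk₀⟩, hlt⟩ := exists_lt_of_ciInf_lt
    (show (⨅ k : {k : ℕ // r < k}, rescaled k r) < infStar r + ε / 2 by
      have : (⨅ k : {k : ℕ // r < k}, rescaled k r) = infStar r := rfl
      rw [this]
      linarith)
  obtain ⟨a, rfl⟩ : ∃ a, k₀ = a + 1 := ⟨k₀ - 1, by omega⟩
  simp only at hlt
  have hra : r ≤ a := by omega
  have ha0 : 0 < a := by omega
  -- the factor tends to 1
  have hfac : Tendsto (fun m : ℕ => (((m : ℝ) + 1) / m) ^ (r - 1) * rescaled (a + 1) r) atTop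
      (𝓝 (1 ^ (r - 1) * rescaled (a + 1) r)) := by
    refine Tendsto.mul_const _ (Tendsto.pow ?_ _)
    have h1 : Tendsto (fun m : ℕ => (1 : ℝ) + 1 / (m : ℝ)) atTop (𝓝 (1 + 0)) :=
      Tendsto.const_add _ tendsto_one_div_atTop_nhds_zero_nat
    rw [add_zero] at h1
    refine h1.congr' ?_
    filter_upwards [eventually_gt_atTop 0] with m hm
    have : (0 : ℝ) < m := by exact_mod_cast hm
    field_simp
  rw [one_pow, one_mul] at hfac
  have hev := hfac.eventually_lt_const (show rescaled (a + 1) r < infStar r + ε by linarith)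
  obtain ⟨M, hM⟩ := eventually_atTop.1 hev
  refine ⟨(M + 1) * a + a + 2, fun k hk => ?_⟩
  set m : ℕ := (k - 1) / a with hm
  have hmM : M + 1 ≤ m := by
    rw [hm, Nat.le_div_iff_mul_le ha0]
    omega
  have h1 : m * a ≤ k - 1 := Nat.div_mul_le_self _ _
  have h2 : k - 1 ≤ (m + 1) * a := by
    have := Nat.lt_mul_div_succ (k - 1) ha0
    rw [← hm, Nat.mul_comm] at this
    exact this.le
  have h3 := rescaled_le hr (by omega : 1 ≤ m) hra h1 h2
  have h4 := hM m (by omega)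
  have hk2 : r < k := by
    have : a ≤ (M + 1) * a := Nat.le_mul_of_pos_left a (by omega)
    omega
  have h5 : infStar r ≤ rescaled k r := ciInf_le (bddBelow hr) ⟨k, hk2⟩
  rw [Real.dist_eq, abs_lt]
  constructor <;> linarith

theorem tStar_eq {r : ℕ} (hr : 1 ≤ r) : tStar r = infStar r := (tendsto hr).limUnder_eq

/-- the estimate at `k = 4 r²` -/
theorem rescaled_four {r : ℕ} (hr : 2 ≤ r) : rescaled (4 * r ^ 2) r ≤ 28 * Real.log r := by
  have hrk : r < 4 * r ^ 2 := by nlinarith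
  have h1 := Pool.Agent.TH173.RT.dens_upper2 hr hrk (dens hrk.le)
  have hr2 : (2 : ℝ) ≤ r := by exact_mod_cast hr
  have hl2 : Real.log 2 ≤ Real.log r := Real.log_le_log (by norm_num) hr2
  have hl0 : (0.69 : ℝ) < Real.log 2 := lt_trans (by norm_num) Real.log_two_gt_d9
  have hC : (0 : ℝ) < ((4 * r ^ 2).choose r : ℝ) := by exact_mod_cast Nat.choose_pos hrk.le
  have hf : (0 : ℝ) < (r.factorial : ℝ) := by exact_mod_cast Nat.factorial_pos r
  have hlog : Real.log ((4 * r ^ 2 : ℕ) : ℝ) ≤ 4 * Real.log r := by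
    have h5 : Real.log ((4 * r ^ 2 : ℕ) : ℝ) = 2 * Real.log 2 + 2 * Real.log r := by
      push_cast
      rw [Real.log_mul (by norm_num) (by positivity), Real.log_pow]
      have : (4 : ℝ) = 2 ^ 2 := by norm_num
      rw [this, Real.log_pow]
      push_cast
      ring
    linarith
  -- comparison of `k^r / r!` and `C(k,r)`
  set K : ℝ := 4 * (r : ℝ) ^ 2 with hK
  have hKc : ((4 * r ^ 2 : ℕ) : ℝ) = K := by push_cast; rfl
  have hK0 : 0 < K := by positivity
  have h2 : ((4 * r ^ 2 + 1 - r) ^ r : ℕ) ≤ r.factorial * (4 * r ^ 2).choose r := by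
    rw [← Nat.descFactorial_eq_factorial_mul_choose]
    exact Nat.pow_sub_le_descFactorial (4 * r ^ 2) r
  have h3 : (K + 1 - r) ^ r ≤ (r.factorial : ℝ) * ((4 * r ^ 2).choose r : ℝ) := by
    have : (((4 * r ^ 2 + 1 - r : ℕ) : ℝ)) = K + 1 - r := by
      rw [Nat.cast_sub (by omega)]
      push_cast
      ring
    rw [← this]
    exact_mod_cast h2
  have h4 : (3 : ℝ) / 4 ≤ ((K + 1 - r) / K) ^ r := by
    have hb := one_add_mul_le_pow (a := -(((r : ℝ) - 1) / K)) (by
      rw [neg_le_neg_iff, div_le_iff₀ hK0]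
      nlinarith) r
    have e : (1 : ℝ) + -(((r : ℝ) - 1) / K) = (K + 1 - r) / K := by
      field_simp
      ring
    rw [e] at hb
    refine le_trans ?_ hb
    have : (r : ℝ) * (((r : ℝ) - 1) / K) ≤ 1 / 4 := by
      rw [mul_div_assoc', div_le_div_iff₀ hK0 (by norm_num)]
      nlinarith
    linarith
  have h5 : 3 * K ^ r ≤ 4 * (K + 1 - r) ^ r := by
    rw [div_pow, div_le_div_iff₀ (by norm_num) (by positivity)] at h4
    linarith
  have h6 : 3 * K ^ r ≤ 4 * ((r.factorial : ℝ) * ((4 * r ^ 2).choose r : ℝ)) := by linarith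
  have hKr : K ^ r = K ^ (r - 1) * K := by
    rw [← pow_succ]
    congr 1
    omega
  have hX : (4 + 5 * ((4 * r ^ 2 - r : ℕ) : ℝ) * Real.log ((4 * r ^ 2 : ℕ) : ℝ)) ≤
      21 * K * Real.log r := by
    have e1 : ((4 * r ^ 2 - r : ℕ) : ℝ) = K - r := by
      rw [Nat.cast_sub hrk.le]
      push_cast
      ring
    rw [e1]
    have hK16 : (16 : ℝ) ≤ K := by nlinarith
    have h0 : 0 ≤ Real.log ((4 * r ^ 2 : ℕ) : ℝ) := Real.log_natCast_nonneg _
    have h7 : (K - r) * Real.log ((4 * r ^ 2 : ℕ) : ℝ) ≤ K * (4 * Real.log r) :=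
      mul_le_mul (by linarith) hlog h0 hK0.le
    have h8 : 4 ≤ K * Real.log r := by nlinarith
    nlinarith
  have hd : turanDensity (4 * r ^ 2) r ≤ 21 * K * Real.log r / ((4 * r ^ 2).choose r : ℝ) := by
    refine h1.trans ?_
    gcongr
  unfold rescaled
  rw [hKc]
  have hlr : 0 ≤ Real.log r := by linarith
  have h9 : (K - 1) ^ (r - 1) ≤ K ^ (r - 1) := by
    have : (0 : ℝ) ≤ K - 1 := by nlinarith
    exact pow_le_pow_left₀ this (by linarith) _
  have hd0 := density_nonneg hrk.le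
  calc (K - 1) ^ (r - 1) / (r.factorial : ℝ) * turanDensity (4 * r ^ 2) r
      ≤ K ^ (r - 1) / (r.factorial : ℝ) *
        (21 * K * Real.log r / ((4 * r ^ 2).choose r : ℝ)) := by gcongr
    _ = 7 * Real.log r * (3 * K ^ r) / ((r.factorial : ℝ) * ((4 * r ^ 2).choose r : ℝ)) := by
        rw [hKr]
        field_simp
        ring
    _ ≤ 7 * Real.log r * (4 * ((r.factorial : ℝ) * ((4 * r ^ 2).choose r : ℝ))) /
        ((r.factorial : ℝ) * ((4 * r ^ 2).choose r : ℝ)) := by gcongr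
    _ = 28 * Real.log r := by
        field_simp
        ring

/-- `t_*(r)` is the limit and the infimum of `t_*(k,r)`, and `t_*(r) ≤ 28 log r` for all
`r ≥ 2`. -/
theorem result : ∀ r : ℕ, 2 ≤ r →
    Tendsto (fun k : ℕ => rescaled k r) atTop (𝓝 (tStar r)) ∧ tStar r ≤ 28 * Real.log r := by
  intro r hr
  have h := tendsto (r := r) (by omega)
  rw [tStar_eq (by omega)]
  refine ⟨h, ?_⟩
  have h1 : infStar r ≤ rescaled (4 * r ^ 2) r :=
    ciInf_le (bddBelow (by omega)) ⟨4 * r ^ 2, by nlinarith⟩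
  exact h1.trans (rescaled_four hr)

end Pool.Agent.Results.MP_ea5d3c_co.LogarithmicUpper
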